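import Pool.Agent.Helper36_X1.SlStmts

/-!
# Squad X1, module SLR: the roots of `SL_{n+1}`
-/

open scoped BigOperators

noncomputable section

namespace Pool.Agent.PP.X1.H29

open Pool.Agent.PP.X1.Sl

variable {n : ℕ}

theorem rt_apply (p q c : Fin (n + 1)) :
    (rt p q) c = (if c = p then (1 : ℝ) else 0) - (if c = q then (1 : ℝ) else 0) := by
  unfold rt
  rw [PiLp.sub_apply, EuclideanSpace.single_apply, EuclideanSpace.single_apply]

theorem rt_left {p q : Fin (n + 1)} (h : p ≠ q) : (rt p q) p = 1 := by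
  rw [rt_apply, if_pos rfl, if_neg h, sub_zero]

theorem rt_right {p q : Fin (n + 1)} (h : p ≠ q) : (rt p q) q = -1 := by
  rw [rt_apply, if_pos rfl, if_neg h.symm, zero_sub]

theorem rt_other {p q c : Fin (n + 1)} (h : c ≠ p) (h' : c ≠ q) : (rt p q) c = 0 := by
  rw [rt_apply, if_neg h, if_neg h', sub_zero]

theorem rt_pos {p q c : Fin (n + 1)} (h : 0 < (rt p q) c) : c = p ∧ (rt p q) c = 1 := by
  rw [rt_apply] at h ⊢
  by_cases h1 : c = p
  · by_cases h2 : c = q
    · rw [if_pos h1, if_pos h2, sub_self] at h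
      exact absurd h (lt_irrefl _)
    · rw [if_pos h1, if_neg h2, sub_zero]
      exact ⟨h1, rfl⟩
  · by_cases h2 : c = q
    · rw [if_neg h1, if_pos h2] at h
      linarith
    · rw [if_neg h1, if_neg h2] at h
      linarith

theorem rt_neg {p q c : Fin (n + 1)} (h : (rt p q) c < 0) : c = q ∧ (rt p q) c = -1 := by
  have h1 : -rt p q = rt q p := by unfold rt; rw [neg_sub]
  have h2 : 0 < (rt q p) c := by
    rw [← h1, PiLp.neg_apply]
    linarith
  obtain ⟨h3, h4⟩ := rt_pos h2
  refine ⟨h3, ?_⟩
  rw [← h1, PiLp.neg_apply] at h4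
  linarith

theorem rt_inj {p q p' q' : Fin (n + 1)} (h : p ≠ q) (_h' : p' ≠ q') (he : rt p q = rt p' q') :
    p = p' ∧ q = q' := by
  have h1 := rt_left h
  have h2 := rt_right h
  rw [he] at h1 h2
  exact ⟨(rt_pos (p := p') (q := q') (by rw [h1]; norm_num)).1,
    (rt_neg (p := p') (q := q') (by rw [h2]; norm_num)).1⟩

theorem neg_rt (p q : Fin (n + 1)) : -rt p q = rt q p := by
  unfold rt
  rw [neg_sub]

theorem rt_add (p q s : Fin (n + 1)) : rt p q + rt q s = rt p s := by
  unfold rt
  rw [sub_add_sub_cancel]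

theorem lin_al : LinearIndependent ℝ (al (n := n)) := by
  rw [Fintype.linearIndependent_iff]
  intro g hg i
  have h1 : ∀ v : EuclideanSpace ℝ (Fin (n + 1)), v = 0 →
      ∑ p ∈ Finset.univ.filter (fun p : Fin (n + 1) => p ≤ i.castSucc), v p = 0 := by
    rintro v rfl
    simp
  have h2 := h1 _ hg
  have h3 : ∀ p : Fin (n + 1), (∑ j, g j • al j) p = ∑ j, g j * (al j) p := by
    intro p
    rw [WithLp.ofLp_sum, Finset.sum_apply]
    rfl
  simp only [h3] at h2
  rw [Finset.sum_comm] at h2
  have h4 : ∀ j : Fin n, ∑ p ∈ Finset.univ.filter (fun p : Fin (n + 1) => p ≤ i.castSucc),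
      g j * (al j) p = if j = i then g j else 0 := by
    intro j
    rw [← Finset.mul_sum]
    unfold al
    simp only [rt_apply]
    rw [Finset.sum_sub_distrib, Finset.sum_ite_eq', Finset.sum_ite_eq']
    simp only [Finset.mem_filter, Finset.mem_univ, true_and]
    by_cases hji : j = i
    · subst hji
      rw [if_pos le_rfl, if_neg, if_pos rfl]
      · ring
      · simp
    · rw [if_neg hji]
      rcases lt_or_gt_of_ne hji with h | h
      · rw [if_pos (by simpa using h.le), if_pos]
        · ring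
        · rw [Fin.le_def, Fin.val_succ, Fin.val_castSucc]
          exact h
      · rw [if_neg (by simpa using h), if_neg]
        · ring
        · rw [Fin.le_def, Fin.val_succ, Fin.val_castSucc]
          have : i.val < j.val := h
          omega
  rw [Finset.sum_congr rfl fun j _ => h4 j, Finset.sum_ite_eq'] at h2
  simpa using h2

theorem nn_add' {u v : EuclideanSpace ℝ (Fin (n + 1))} (hu : Nn (al (n := n)) u)
    (hv : Nn (al (n := n)) v) : Nn (al (n := n)) (u + v) := by
  obtain ⟨k, hk, rfl⟩ := hu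
  obtain ⟨l, hl, rfl⟩ := hv
  exact ⟨fun i => k i + l i, fun i => add_nonneg (hk i) (hl i), by
    simp only [add_smul, Finset.sum_add_distrib]⟩

theorem nn_al (i : Fin n) : Nn (al (n := n)) (al i) := by
  classical
  refine ⟨fun j => if j = i then 1 else 0, fun j => ?_, ?_⟩
  · dsimp only
    split_ifs <;> norm_num
  · simp

theorem nn_rt (m : ℕ) : ∀ p q : Fin (n + 1), q.val = p.val + m + 1 → Nn (al (n := n)) (rt p q) := by
  induction m with
  | zero =>
    intro p q h
    have h1 : p.val < n := by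
      have := q.2
      omega
    have h2 : rt p q = al (⟨p.val, h1⟩ : Fin n) := by
      unfold al
      congr 1
      apply Fin.ext
      rw [Fin.val_succ]
      exact h
    rw [h2]
    exact nn_al _
  | succ m ih =>
    intro p q h
    have h1 : p.val + m + 1 < n + 1 := by
      have := q.2
      omega
    have h2 : rt p q = rt p (⟨p.val + m + 1, h1⟩ : Fin (n + 1)) + rt ⟨p.val + m + 1, h1⟩ q :=
      (rt_add _ _ _).symm
    rw [h2]
    refine nn_add' (ih p _ rfl) ?_
    have h3 : p.val + m + 1 < n := by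
      have := q.2
      omega
    have h4 : rt (⟨p.val + m + 1, h1⟩ : Fin (n + 1)) q = al (⟨p.val + m + 1, h3⟩ : Fin n) := by
      unfold al
      congr 1
      apply Fin.ext
      rw [Fin.val_succ]
      exact h
    rw [h4]
    exact nn_al _

/-- the height -/
def ht (v : EuclideanSpace ℝ (Fin (n + 1))) : ℝ := - ∑ c : Fin (n + 1), (c.val : ℝ) * v c

theorem ht_rt (p q : Fin (n + 1)) : ht (rt p q) = (q.val : ℝ) - p.val := by
  unfold ht
  simp only [rt_apply, mul_sub, mul_ite, mul_one, mul_zero]
  rw [Finset.sum_sub_distrib, Finset.sum_ite_eq', Finset.sum_ite_eq']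
  simp

theorem ht_sum (k : Fin n → ℝ) : ht (∑ i, k i • al (n := n) i) = ∑ i, k i := by
  have h0 : ht (∑ i, k i • al (n := n) i) = ∑ i, k i * ht (al (n := n) i) := by
    unfold ht
    have h3 : ∀ p : Fin (n + 1), (∑ j, k j • al j) p = ∑ j, k j * (al j) p := by
      intro p
      rw [WithLp.ofLp_sum, Finset.sum_apply]
      rfl
    simp only [h3, Finset.mul_sum, mul_neg]
    rw [Finset.sum_comm, ← Finset.sum_neg_distrib]
    refine Finset.sum_congr rfl fun i _ => ?_
    congr 1
    refine Finset.sum_congr rfl fun c _ => ?_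
    ring
  rw [h0]
  refine Finset.sum_congr rfl fun i _ => ?_
  unfold al
  rw [ht_rt, Fin.val_succ, Fin.val_castSucc]
  push_cast
  ring

theorem nn_iff {p q : Fin (n + 1)} (h : p ≠ q) : Nn (al (n := n)) (rt p q) ↔ p < q := by
  constructor
  · rintro ⟨k, hk, he⟩
    have h1 := ht_rt p q
    rw [he, ht_sum] at h1
    have h2 : 0 ≤ ∑ i, k i := Finset.sum_nonneg fun i _ => hk i
    rw [h1] at h2
    have h3 : p.val ≤ q.val := by
      have : (p.val : ℝ) ≤ q.val := by linarith
      exact_mod_cast this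
    exact lt_of_le_of_ne h3 h
  · intro hlt
    have : p.val < q.val := hlt
    exact nn_rt (q.val - p.val - 1) p q (by omega)

theorem inner_al (i : Fin n) (v : EuclideanSpace ℝ (Fin (n + 1))) :
    inner ℝ (al i) v = v i.castSucc - v i.succ := by
  unfold al rt
  rw [inner_sub_left, EuclideanSpace.inner_single_left, EuclideanSpace.inner_single_left]
  simp

theorem cs_ne (i : Fin n) : i.castSucc ≠ i.succ := (Fin.castSucc_lt_succ).ne

theorem rf_apply (i : Fin n) (v : EuclideanSpace ℝ (Fin (n + 1))) (c : Fin (n + 1)) :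
    (rf (al i) v) c = v (Equiv.swap i.castSucc i.succ c) := by
  have h1 : inner ℝ (al i) (al i) = (2 : ℝ) := by
    rw [inner_al]
    unfold al
    rw [rt_left (cs_ne i), rt_right (cs_ne i)]
    norm_num
  have h2 : (rf (al i) v) c = v c - (v i.castSucc - v i.succ) * (al i) c := by
    unfold rf
    rw [h1, inner_al, PiLp.sub_apply, PiLp.smul_apply, smul_eq_mul]
    ring
  rw [h2]
  by_cases hc1 : c = i.castSucc
  · rw [hc1, Equiv.swap_apply_left]
    unfold al
    rw [rt_left (cs_ne i)]
    ring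
  · by_cases hc2 : c = i.succ
    · rw [hc2, Equiv.swap_apply_right]
      unfold al
      rw [rt_right (cs_ne i)]
      ring
    · rw [Equiv.swap_apply_of_ne_of_ne hc1 hc2]
      unfold al
      rw [rt_other hc1 hc2]
      ring

theorem rf_rt (i : Fin n) (p q : Fin (n + 1)) : rf (al i) (rt p q) =
    rt (Equiv.swap i.castSucc i.succ p) (Equiv.swap i.castSucc i.succ q) := by
  ext c
  rw [rf_apply, rt_apply, rt_apply]
  have h : ∀ x y : Fin (n + 1), Equiv.swap i.castSucc i.succ x = y ↔
      x = Equiv.swap i.castSucc i.succ y := by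
    intro x y
    constructor
    · rintro rfl
      rw [Equiv.swap_apply_self]
    · rintro rfl
      rw [Equiv.swap_apply_self]
  simp only [h]

theorem smul_rt {p q : Fin (n + 1)} {c : ℝ} (h : p ≠ q) (hc : 0 < c)
    (hr : c • rt p q ∈ roots n) : c = 1 := by
  obtain ⟨s, t, hst, he⟩ := hr
  have h1 : (rt s t) p = c := by
    rw [← he, PiLp.smul_apply, rt_left h, smul_eq_mul, mul_one]
  have h2 := (rt_pos (p := s) (q := t) (c := p) (by rw [h1]; exact hc)).2
  rw [← h1, h2]

theorem comb_rt {p q p' q' : Fin (n + 1)} {x y : ℝ} (h : p ≠ q) (h' : p' ≠ q')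
    (hn : ¬ (p = q' ∧ q = p')) (hx : 1 ≤ x) (hy : 1 ≤ y)
    (hr : x • rt p q + y • rt p' q' ∈ roots n) :
    x = 1 ∧ y = 1 ∧ ((q = p' ∧ p ≠ q') ∨ (q' = p ∧ p' ≠ q)) := by
  obtain ⟨s, t, hst, he⟩ := hr
  have key : ∀ c, (rt s t) c = x * (rt p q) c + y * (rt p' q') c := by
    intro c
    rw [← he, PiLp.add_apply, PiLp.smul_apply, PiLp.smul_apply, smul_eq_mul, smul_eq_mul]
  have kp := key p
  have kq := key q
  have kp' := key p'
  have kq' := key q'
  rw [rt_left h] at kp
  rw [rt_right h] at kq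
  rw [rt_left h'] at kp'
  rw [rt_right h'] at kq'
  -- `p = p'` is impossible
  by_cases e1 : p = p'
  · exfalso
    subst e1
    rw [rt_left h'] at kp
    have := (rt_pos (p := s) (q := t) (c := p) (by rw [kp]; linarith)).2
    linarith
  by_cases e2 : q = q'
  · exfalso
    subst e2
    rw [rt_right h'] at kq
    have := (rt_neg (p := s) (q := t) (c := q) (by rw [kq]; linarith)).2
    linarith
  by_cases e3 : p = q'
  · subst e3
    have e4 : q ≠ p' := fun e => hn ⟨rfl, e⟩
    rw [rt_other (p := p') (q := p) e4 h.symm] at kq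
    rw [rt_other (p := p) (q := q) h' e4.symm] at kp'
    have h1 := (rt_neg (p := s) (q := t) (c := q) (by rw [kq]; linarith)).2
    have h2 := (rt_pos (p := s) (q := t) (c := p') (by rw [kp']; linarith)).2
    exact ⟨by linarith, by linarith, Or.inr ⟨rfl, e4.symm⟩⟩
  by_cases e5 : q = p'
  · subst e5
    rw [rt_other (p := q) (q := q') e1 e3] at kp
    rw [rt_other (p := p) (q := q) (Ne.symm e3) h'.symm] at kq'
    have h1 := (rt_pos (p := s) (q := t) (c := p) (by rw [kp]; linarith)).2
    have h2 := (rt_neg (p := s) (q := t) (c := q') (by rw [kq']; linarith)).2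
    exact ⟨by linarith, by linarith, Or.inl ⟨rfl, e3⟩⟩
  · exfalso
    rw [rt_other (p := p') (q := q') e1 e3] at kp
    rw [rt_other (p := p) (q := q) (Ne.symm e1) (Ne.symm e5)] at kp'
    have h1 := (rt_pos (p := s) (q := t) (c := p) (by rw [kp]; linarith)).1
    have h2 := (rt_pos (p := s) (q := t) (c := p') (by rw [kp']; linarith)).1
    exact e1 (h1.trans h2.symm)

/-- SLR: the roots. -/
theorem slr : SlrStmt := by
  intro n
  refine ⟨?_, lin_al, fun p q p' q' h h' he => rt_inj h h' he, neg_rt, rt_add,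
    fun p q h => nn_iff h, rf_rt, fun p q c h hc hr => smul_rt h hc hr,
    fun p q p' q' x y h h' hn hx hy hr => comb_rt h h' hn hx hy hr⟩
  refine (Set.finite_range (fun u : Fin (n + 1) × Fin (n + 1) => rt u.1 u.2)).subset ?_
  rintro b ⟨p, q, -, rfl⟩
  exact ⟨(p, q), rfl⟩

end Pool.Agent.PP.X1.H29
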