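import Pool.Agent.Helper29_X1.Slr

/-!
# Squad X1, module SLX: the root groups of `SL_{n+1}`
-/

open scoped BigOperators

noncomputable section

namespace Pool.Agent.PP.X1.H29

open Pool.Agent.PP.X1.Sl

section

variable (K : Type) [Field K] (n : ℕ)

theorem tv_coe {p q : Fin (n + 1)} (h : p ≠ q) (c : K) :
    (tv K n p q c : Matrix (Fin (n + 1)) (Fin (n + 1)) K) = Matrix.transvection p q c := by
  unfold tv
  rw [dif_pos h]

theorem tv_mul {p q : Fin (n + 1)} (h : p ≠ q) (c d : K) :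
    tv K n p q c * tv K n p q d = tv K n p q (c + d) := by
  apply Subtype.ext
  rw [Matrix.SpecialLinearGroup.coe_mul, tv_coe K n h, tv_coe K n h, tv_coe K n h,
    Matrix.transvection_mul_transvection_same _ _ h]

theorem tv_zero {p q : Fin (n + 1)} (h : p ≠ q) : tv K n p q 0 = 1 := by
  apply Subtype.ext
  rw [tv_coe K n h, Matrix.transvection_zero, Matrix.SpecialLinearGroup.coe_one]

theorem tv_inv (p q : Fin (n + 1)) (c : K) : (tv K n p q c)⁻¹ = tv K n p q (-c) := by
  by_cases h : p = q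
  · unfold tv
    rw [dif_neg (not_not.2 h), dif_neg (not_not.2 h), inv_one]
  · rw [inv_eq_iff_mul_eq_one, tv_mul K n h, add_neg_cancel, tv_zero K n h]

theorem tv_pow {p q : Fin (n + 1)} (h : p ≠ q) (c : K) (m : ℕ) :
    tv K n p q c ^ m = tv K n p q (m * c) := by
  induction m with
  | zero => rw [pow_zero, Nat.cast_zero, zero_mul, tv_zero K n h]
  | succ m ih =>
    rw [pow_succ, ih, tv_mul K n h]
    congr 1
    push_cast
    ring

theorem tv_inj {p q : Fin (n + 1)} (h : p ≠ q) {c d : K} (he : tv K n p q c = tv K n p q d) :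
    c = d := by
  have h1 : (tv K n p q c : Matrix (Fin (n + 1)) (Fin (n + 1)) K) p q =
      (tv K n p q d : Matrix (Fin (n + 1)) (Fin (n + 1)) K) p q := by rw [he]
  rw [tv_coe K n h, tv_coe K n h] at h1
  simpa [Matrix.transvection, Matrix.one_apply_ne h] using h1

theorem XX_rt {p q : Fin (n + 1)} (h : p ≠ q) (g : Matrix.SpecialLinearGroup (Fin (n + 1)) K) :
    g ∈ XX K n (rt p q) ↔ ∃ c, g = tv K n p q c := by
  constructor
  · intro hg
    refine Subgroup.closure_induction (p := fun g _ => ∃ c, g = tv K n p q c) ?_ ?_ ?_ ?_ hg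
    · rintro g ⟨p', q', c, h1, h2, h3⟩
      obtain ⟨e1, e2⟩ := rt_inj h h1 h2
      subst e1 e2
      exact ⟨c, h3⟩
    · exact ⟨0, (tv_zero K n h).symm⟩
    · rintro g g' _ _ ⟨c, rfl⟩ ⟨d, rfl⟩
      exact ⟨c + d, tv_mul K n h c d⟩
    · rintro g _ ⟨c, rfl⟩
      exact ⟨-c, tv_inv K n p q c⟩
  · rintro ⟨c, rfl⟩
    exact Subgroup.subset_closure ⟨p, q, c, h, rfl, rfl⟩

theorem tv_comm {p q s : Fin (n + 1)} (c d : K) (h1 : p ≠ q) (h2 : q ≠ s) (h3 : p ≠ s) :
    tv K n p q c * tv K n q s d * (tv K n p q c)⁻¹ * (tv K n q s d)⁻¹ = tv K n p s (c * d) := by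
  have key : tv K n p q c * tv K n q s d = tv K n p s (c * d) * (tv K n q s d * tv K n p q c) := by
    apply Subtype.ext
    simp only [Matrix.SpecialLinearGroup.coe_mul]
    rw [tv_coe K n h1, tv_coe K n h2, tv_coe K n h3]
    unfold Matrix.transvection
    simp only [Matrix.add_mul, Matrix.mul_add, Matrix.one_mul, Matrix.mul_one,
      Matrix.single_mul_single_same, Matrix.single_mul_single_of_ne _ _ _ _ h2.symm,
      Matrix.single_mul_single_of_ne _ _ _ _ h3.symm, add_zero, Matrix.mul_zero]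
    abel
  rw [key]
  group

theorem tv_comm' {p q p' q' : Fin (n + 1)} (c d : K) (h : p ≠ q) (h' : p' ≠ q') (h1 : q ≠ p')
    (h2 : p ≠ q') : tv K n p q c * tv K n p' q' d = tv K n p' q' d * tv K n p q c := by
  apply Subtype.ext
  simp only [Matrix.SpecialLinearGroup.coe_mul]
  rw [tv_coe K n h, tv_coe K n h']
  unfold Matrix.transvection
  simp only [Matrix.add_mul, Matrix.mul_add, Matrix.one_mul, Matrix.mul_one,
    Matrix.single_mul_single_of_ne _ _ _ _ h1, Matrix.single_mul_single_of_ne _ _ _ _ h2.symm]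
  abel

end

/-- SLX: the root groups. -/
theorem slx : SlxStmt := by
  intro K _ _ n
  refine ⟨fun p q c h => tv_coe K n h c, fun p q h g => XX_rt K n h g, ?_,
    fun p q c d h => tv_mul K n h c d, tv_inv K n,
    fun p q s c d h1 h2 h3 => tv_comm K n c d h1 h2 h3,
    fun p q p' q' c d h h' h1 h2 => tv_comm' K n c d h h' h1 h2, ?_⟩
  · intro b hb
    have h1 : {g | ∃ p q c, p ≠ q ∧ b = rt p q ∧ g = tv K n p q c} =
        (∅ : Set (Matrix.SpecialLinearGroup (Fin (n + 1)) K)) := by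
      ext g
      simp only [Set.mem_empty_iff_false, iff_false]
      rintro ⟨p, q, c, h2, h3, -⟩
      exact hb ⟨p, q, h2, h3⟩
    unfold XX
    rw [h1, Subgroup.closure_empty]
  · intro ℓ _ _ p q h
    refine ⟨?_, ?_⟩
    · rintro ⟨g, hg⟩
      obtain ⟨c, rfl⟩ := (XX_rt K n h g).1 hg
      refine ⟨1, ?_⟩
      apply Subtype.ext
      rw [pow_one, Subgroup.coe_pow, Subgroup.coe_one]
      show tv K n p q c ^ ℓ = 1
      rw [tv_pow K n h, CharP.cast_eq_zero, zero_mul, tv_zero K n h]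
    · intro hb
      have h1 : tv K n p q 1 ∈ XX K n (rt p q) := (XX_rt K n h _).2 ⟨1, rfl⟩
      rw [hb, Subgroup.mem_bot, ← tv_zero K n h] at h1
      exact one_ne_zero (tv_inj K n h h1)

end Pool.Agent.PP.X1.H29
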